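import Pool.Agent.Helper89.ME.KerDefs
import Pool.Agent.Helper89.ME.CatAll

/-!
# ME-KER0: joint decoding, recovery from facts
-/

set_option autoImplicit false

namespace ME

open Encodable Set

namespace Ker66

theorem mem_tg {n : ℕ} {X : Set ℕ} {p : ℕ × ℕ} : encode p ∈ tg n X ↔ p.1 = n ∧ p.2 ∈ plus X := by
  unfold tg
  rw [encode_mem_cd]
  obtain ⟨k, a⟩ := p
  simp only [mem_insert_iff, Prod.mk.injEq, mem_setOf_eq, plus]
  constructor
  · rintro (⟨h1, h2⟩ | ⟨x, hx, h1, h2⟩)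
    · exact ⟨h1, Or.inl h2⟩
    · exact ⟨h1, Or.inr ⟨x, hx, h2⟩⟩
  · rintro ⟨h1, h2 | ⟨x, hx, h2⟩⟩
    · exact Or.inl ⟨h1, h2⟩
    · exact Or.inr ⟨x, hx, h1, h2⟩

theorem mem_tg' {n m : ℕ} {X : Set ℕ} : m ∈ tg n X ↔ ∃ p : ℕ × ℕ, m = encode p ∧ p.1 = n ∧
    p.2 ∈ plus X := by
  constructor
  · intro h
    obtain ⟨p, hp, rfl⟩ := h
    exact ⟨p, rfl, mem_tg.1 ⟨p, hp, rfl⟩⟩
  · rintro ⟨p, rfl, h⟩
    exact mem_tg.2 h

/-- types of the two kinds match only at the branching -/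
theorem pre_flip_eq {y₀ y₁ : ℕ → Bool} {n m : ℕ}
    (h : pre y₀ n ++ [!(y₀ n)] = pre y₁ (m + 1)) : n = m ∧ (∀ i < n, y₀ i = y₁ i) ∧
      y₁ n = !(y₀ n) := by
  have hl := congrArg List.length h
  simp only [List.length_append, length_pre, List.length_cons, List.length_nil] at hl
  have hnm : n = m := by omega
  subst hnm
  refine ⟨rfl, ?_, ?_⟩
  · intro i hi
    have h1 : (pre y₀ n ++ [!(y₀ n)])[i]? = (pre y₁ (n + 1))[i]? := by rw [h]
    rw [List.getElem?_append_left (by simpa using hi)] at h1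
    simp only [pre, List.getElem?_map] at h1
    rw [List.getElem?_range hi, List.getElem?_range (by omega)] at h1
    simpa using h1
  · have h1 : (pre y₀ n ++ [!(y₀ n)])[n]? = (pre y₁ (n + 1))[n]? := by rw [h]
    rw [List.getElem?_append_right (by simp)] at h1
    simp only [pre, List.getElem?_map] at h1
    rw [List.getElem?_range (by omega)] at h1
    simpa using h1.symm

theorem pre_flip_eq' {y₀ y₁ : ℕ → Bool} {n : ℕ} (h1 : ∀ i < n, y₀ i = y₁ i)
    (h2 : y₁ n = !(y₀ n)) : pre y₀ n ++ [!(y₀ n)] = pre y₁ (n + 1) := by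
  unfold pre
  rw [List.range_succ, List.map_append]
  congr 1
  · apply List.map_congr_left
    intro i hi
    exact h1 i (List.mem_range.1 hi)
  · simp [h2]

theorem sat_of_lt {a z : ℕ → Bool} {k n : ℕ} (h : n < k) : sat a k z n = a n := by
  simp [sat, h]

theorem sat_self {a z : ℕ → Bool} {k : ℕ} : sat a k z k = !(a k) := by
  simp [sat]

theorem sat_of_gt {a z : ℕ → Bool} {k n : ℕ} (h : k < n) : sat a k z n = z n := by
  simp [sat, h.ne', Nat.not_lt.2 h.le]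

end Ker66

open Ker66

/-- ME-KER0a: joint decoding of `k0` and `k1` -/
theorem joint_decode : ∃ Θ : Set (ℕ ⊕ ℕ) → Set ℕ, IsOp Θ ∧
    ∀ (τ : ℕ → ℕ) (_ : ∀ p : List Bool × ℕ, ∃ b, ty (τ b) = some p) (A : ℕ → Set ℕ)
      (y₀ y₁ : ℕ → Bool), y₀ ≠ y₁ →
      Θ (sj (cd (k0 τ y₀)) (k1 τ A y₁)) = tg (fd y₀ y₁) (A (fd y₀ y₁)) := by
  refine ⟨fun Z => {m | ∃ q : ℕ × (ℕ × ℕ), m = encode q.2 ∧ Sum.inl (encode q) ∈ Z ∧
    Sum.inr q.1 ∈ Z}, ?_, ?_⟩
  · have h1 : EP (fun (_ : Set (ℕ ⊕ ℕ)) (x : ℕ × (ℕ × (ℕ × ℕ))) => x.1 = encode x.2.2) :=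
      EP.re (RE.eq Primrec.fst (Primrec.encode.comp (Primrec.snd.comp Primrec.snd)))
    have h2 : EP (fun (Z : Set (ℕ ⊕ ℕ)) (x : ℕ × (ℕ × (ℕ × ℕ))) => Sum.inl (encode x.2) ∈ Z) :=
      EP.mem (Primrec.sumInl.comp (Primrec.encode.comp Primrec.snd))
    have h3 : EP (fun (Z : Set (ℕ ⊕ ℕ)) (x : ℕ × (ℕ × (ℕ × ℕ))) => Sum.inr x.2.1 ∈ Z) :=
      EP.mem (Primrec.sumInr.comp (Primrec.fst.comp Primrec.snd))
    exact (h1.and (h2.and h3)).ex
  · intro τ hτ A y₀ y₁ hne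
    ext m
    rw [mem_tg']
    simp only [mem_setOf_eq, inl_mem_sj, inr_mem_sj, encode_mem_cd]
    constructor
    · rintro ⟨⟨b, n, a⟩, hm, h1, n', a', h2, h3⟩
      simp only [k0, mem_setOf_eq] at h1
      simp only at h2
      rw [h1] at h2
      obtain ⟨h4, rfl⟩ := Prod.mk.inj (Option.some.inj h2)
      obtain ⟨rfl, h5, h6⟩ := pre_flip_eq h4
      have h7 : fd y₀ y₁ = n := fd_unique h5 (by rw [h6]; cases y₀ n <;> simp)
      rw [h7]
      exact ⟨(n, a), hm, rfl, h3⟩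
    · rintro ⟨⟨n, a⟩, hm, h1, h2⟩
      simp only at h1 h2
      subst h1
      obtain ⟨b, hb⟩ := hτ (pre y₀ (fd y₀ y₁) ++ [!(y₀ (fd y₀ y₁))], a)
      refine ⟨(b, (fd y₀ y₁, a)), hm, hb, fd y₀ y₁, a, ?_, h2⟩
      simp only
      rw [hb, pre_flip_eq' (y₁ := y₁)]
      · intro i hi
        exact fd_eq_of_lt hi
      · have := fd_ne hne
        revert this
        cases y₀ (fd y₀ y₁) <;> cases y₁ (fd y₀ y₁) <;> simp

/-- ME-KER0b: `k0` and `k1` from the facts and `tg n (A n)` -/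
theorem from_facts : ∃ Θ : Set (ℕ ⊕ (ℕ × ((ℕ × ℕ) ⊕ ℕ))) → Set (ℕ ⊕ ℕ), IsOp Θ ∧
    ∀ (A : ℕ → Set ℕ) (g : Gam) (n : ℕ),
      Θ (sj (tg n (A n)) (facts A g)) =
        sj (cd (k0 g.1 g.2.1)) (k1 g.1 A (sat g.2.1 n (g.2.2 n))) := by
  refine ⟨fun Z => sj (cd {q : ℕ × (ℕ × ℕ) | Sum.inr (q.1, Sum.inl q.2) ∈ Z})
    {b : ℕ | (∃ n : ℕ, Sum.inl (encode (n, 0)) ∈ Z ∧ Sum.inr (b, Sum.inr n) ∈ Z) ∨
      ∃ p : ℕ × ℕ, Sum.inl (encode p) ∈ Z ∧ Sum.inr (b, Sum.inl p) ∈ Z}, ?_, ?_⟩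
  · refine IsOp.sj (IsOp.cd ?_) ?_
    · exact EP.mem (Primrec.sumInr.comp (Primrec.fst.pair (Primrec.sumInl.comp Primrec.snd)))
    · refine EP.or (EP.ex (P := fun (Z : Set (ℕ ⊕ (ℕ × ((ℕ × ℕ) ⊕ ℕ)))) (x : ℕ × ℕ) =>
        Sum.inl (encode (x.2, 0)) ∈ Z ∧ Sum.inr (x.1, Sum.inr x.2) ∈ Z) ?_)
        (EP.ex (P := fun (Z : Set (ℕ ⊕ (ℕ × ((ℕ × ℕ) ⊕ ℕ)))) (x : ℕ × (ℕ × ℕ)) =>
        Sum.inl (encode x.2) ∈ Z ∧ Sum.inr (x.1, Sum.inl x.2) ∈ Z) ?_)
      · exact EP.and (EP.mem (Primrec.sumInl.comp (Primrec.encode.comp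
          (Primrec.snd.pair (Primrec.const 0)))))
          (EP.mem (Primrec.sumInr.comp (Primrec.fst.pair (Primrec.sumInr.comp Primrec.snd))))
      · exact EP.and (EP.mem (Primrec.sumInl.comp (Primrec.encode.comp Primrec.snd)))
          (EP.mem (Primrec.sumInr.comp (Primrec.fst.pair (Primrec.sumInl.comp Primrec.snd))))
  · intro A g n
    obtain ⟨τ, y₀, z⟩ := g
    refine congrArg₂ sj (congrArg cd ?_) ?_
    · ext ⟨b, m, a⟩
      simp only [mem_setOf_eq, inr_mem_sj, facts, k0]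
      constructor
      · rintro (⟨n', a', h1, h2⟩ | ⟨m', h1, _⟩)
        · obtain ⟨rfl, rfl⟩ := Prod.mk.inj (Sum.inl.inj h1)
          exact h2
        · exact absurd h1 (by simp)
      · intro h
        exact Or.inl ⟨m, a, rfl, h⟩
    · ext b
      simp only [mem_setOf_eq, inr_mem_sj, inl_mem_sj, mem_tg]
      have key : ∀ n' a', ty (τ b) = some (pre y₀ n' ++ [!(y₀ n')], a') →
          (b ∈ k1 τ A (sat y₀ n (z n)) ↔ n' = n ∧ a' ∈ plus (A n)) := by
        intro n' a' h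
        constructor
        · rintro ⟨m, a, h1, h2⟩
          rw [h] at h1
          obtain ⟨h3, rfl⟩ := Prod.mk.inj (Option.some.inj h1)
          obtain ⟨rfl, h5, h6⟩ := pre_flip_eq h3
          have h7 : n' = n := by
            rcases lt_trichotomy n' n with h | h | h
            · rw [sat_of_lt h] at h6
              revert h6
              cases y₀ n' <;> simp
            · exact h
            · have := h5 n h
              rw [sat_self] at this
              revert this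
              cases y₀ n <;> simp
          subst h7
          exact ⟨rfl, h2⟩
        · rintro ⟨rfl, h2⟩
          refine ⟨n', a', ?_, h2⟩
          rw [h, pre_flip_eq' (y₁ := sat y₀ n' (z n'))]
          · intro i hi
            rw [sat_of_lt hi]
          · rw [sat_self]
      by_cases hF : ∃ n' a', ty (τ b) = some (pre y₀ n' ++ [!(y₀ n')], a')
      · obtain ⟨n', a', h⟩ := hF
        rw [key n' a' h]
        constructor
        · rintro (⟨m, _, h1⟩ | ⟨p, ⟨h1, h2⟩, h3⟩)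
          · exfalso
            rcases h1 with ⟨_, _, h2, _⟩ | ⟨_, _, h2, _⟩
            · exact absurd h2 (by simp)
            · exact h2 n' a' h
          · rcases h3 with ⟨n'', a'', h4, h5⟩ | ⟨_, h4, _⟩
            · obtain rfl := Sum.inl.inj h4
              simp only at h5
              rw [h] at h5
              obtain ⟨h6, rfl⟩ := Prod.mk.inj (Option.some.inj h5)
              have h7 := congrArg List.length h6
              simp only [List.length_append, length_pre, List.length_cons, List.length_nil] at h7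
              simp only at h1 h2
              exact ⟨by omega, h2⟩
            · exact absurd h4 (by simp)
        · rintro ⟨rfl, h2⟩
          exact Or.inr ⟨(n', a'), ⟨rfl, h2⟩, Or.inl ⟨n', a', rfl, h⟩⟩
      · have hF' : ∀ n' a', ty (τ b) ≠ some (pre y₀ n' ++ [!(y₀ n')], a') := by
          intro n' a' h
          exact hF ⟨n', a', h⟩
        constructor
        · rintro (⟨m, ⟨h0, _⟩, h1⟩ | ⟨p, _, h3⟩)
          · rcases h1 with ⟨_, _, h2, _⟩ | ⟨m', h2, _, h3⟩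
            · exact absurd h2 (by simp)
            · obtain rfl := Sum.inr.inj h2
              simp only at h0 h3
              rw [← h0]
              exact h3
          · rcases h3 with ⟨n'', a'', _, h5⟩ | ⟨_, h4, _⟩
            · exact absurd h5 (hF' _ _)
            · exact absurd h4 (by simp)
        · intro h
          refine Or.inl ⟨n, ⟨rfl, Or.inl rfl⟩, Or.inr ⟨n, rfl, hF', h⟩⟩

end ME
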