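import Pool.Agent.Helper66.ME.Sat
import Pool.Agent.Helper89.ME.LatAll

/-!
# ME-KER1: first step of the kernel theorem
-/

set_option autoImplicit false

namespace ME

open Encodable Set Filter Topology

namespace Ker66

theorem symm_pi_id (a : Aut) (hpi : ∀ X, EE (a.pi X) X) (X : Set ℕ) : EE (a.symm.pi X) X :=
  ⟨(Aut.pi_mono a.symm).2 (hpi X).2 |>.trans (a.pi_symm X).1,
    (a.pi_symm X).2.trans ((Aut.pi_mono a.symm).2 (hpi X).1)⟩

/-- `α A ≤ {X}` when `A ≤ {X}` and `π X ≡ X` -/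
theorem F_le_single (a : Aut) (hpi : ∀ X, EE (a.pi X) X) {A : Set (Set ℕ)} {X : Set ℕ}
    (h : PR A {X}) : PR (a.F A) {X} :=
  (a.F_mono _ _ h).trans ((a.pi_spec X).1.trans (PR_singleton.2 (hpi X).1))

theorem PJ_mono {A B C D : Set (Set ℕ)} (h1 : PR A C) (h2 : PR B D) : PR (PJ A B) (PJ C D) :=
  PJ_le (h1.trans (PJ_left C D)) (h2.trans (PJ_right C D))

/-- case distinction on a marker -/
theorem case_marker {α β : Type} [Primcodable α] [Primcodable β] (N : ℕ)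
    (M : Set α → ℕ → Prop) (hM : EP M) (Φ : ℕ → Set α → Set β) (hΦ : ∀ i, IsOp (Φ i))
    (Ψ : Set α → Set β) (hΨ : IsOp Ψ) : ∃ Θ : Set α → Set β, IsOp Θ ∧
      ∀ Z n, (∀ m, M Z m ↔ m = n) → Θ Z = if n < N then Φ n Z else Ψ Z := by
  have h1 : ∀ N, EP (fun (Z : Set α) (b : β) => ∃ i < N, M Z i ∧ b ∈ Φ i Z) := by
    intro N
    induction N with
    | zero =>
      refine (EP.re (RE.const False)).of_iff ?_
      intro Z b
      simp
    | succ N ih =>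
      have h2 : EP (fun (Z : Set α) (b : β) => M Z N ∧ b ∈ Φ N Z) :=
        EP.and (EP.subst hM (Primrec.const N)) (hΦ N)
      refine (ih.or h2).of_iff ?_
      intro Z b
      constructor
      · rintro ⟨i, hi, h3⟩
        rcases Nat.lt_succ_iff_lt_or_eq.1 hi with h | rfl
        · exact Or.inl ⟨i, h, h3⟩
        · exact Or.inr h3
      · rintro (⟨i, hi, h3⟩ | h3)
        · exact ⟨i, by omega, h3⟩
        · exact ⟨N, by omega, h3⟩
  have h2 : EP (fun (Z : Set α) (b : β) => ∃ i, N ≤ i ∧ (M Z i ∧ b ∈ Ψ Z)) := by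
    have h3 : EP (fun (Z : Set α) (x : β × ℕ) => N ≤ x.2 ∧ (M Z x.2 ∧ x.1 ∈ Ψ Z)) := by
      refine EP.and (EP.re (RE.prim ?_)) (EP.and (EP.subst hM Primrec.snd)
        (EP.subst hΨ Primrec.fst))
      exact Primrec.nat_le.comp (Primrec.const N) Primrec.snd
    exact h3.ex
  refine ⟨fun Z => {b | (∃ i < N, M Z i ∧ b ∈ Φ i Z) ∨ ∃ i, N ≤ i ∧ (M Z i ∧ b ∈ Ψ Z)},
    (h1 N).or h2, ?_⟩
  intro Z n hn
  ext b
  simp only [mem_ofPred_eq, hn]
  by_cases h : n < N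
  · simp only [h, if_true]
    constructor
    · rintro (⟨i, _, rfl, h3⟩ | ⟨i, h3, rfl, _⟩)
      · exact h3
      · omega
    · intro h3
      exact Or.inl ⟨n, h, rfl, h3⟩
  · simp only [h, if_false]
    constructor
    · rintro (⟨i, h4, rfl, h3⟩ | ⟨i, _, rfl, h3⟩)
      · exact absurd h4 h
      · exact h3
    · intro h3
      exact Or.inr ⟨n, by omega, rfl, h3⟩

/-- the types of the tokens can be prescribed densely -/
theorem dense_type (p : List Bool × ℕ) :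
    IsOpen {τ : ℕ → ℕ | ∃ b, ty (τ b) = some p} ∧ Dense {τ : ℕ → ℕ | ∃ b, ty (τ b) = some p} := by
  constructor
  · have : {τ : ℕ → ℕ | ∃ b, ty (τ b) = some p} = ⋃ b, (fun τ : ℕ → ℕ => τ b) ⁻¹'
        {k | ty k = some p} := by
      ext τ
      simp
    rw [this]
    exact isOpen_iUnion fun b => (isOpen_discrete _).preimage (continuous_apply b)
  · rw [dense_iff_inter_open]
    rintro U hU ⟨τ, hτ⟩
    obtain ⟨I, u, hu, hUs⟩ := isOpen_pi_iff.1 hU τ hτ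
    obtain ⟨b, hb⟩ := Infinite.exists_notMem_finset I
    refine ⟨Function.update τ b (encode p + 1), hUs ?_, b, ?_⟩
    · intro i hi
      have hne : i ≠ b := by
        rintro rfl
        exact hb hi
      rw [Function.update_of_ne hne]
      exact (hu i hi).2
    · simp [ty]

/-- the choice of the generic parameters -/
theorem ker_choice (V : ℕ → Set Gam) (ho : ∀ k, IsOpen (V k)) (hd : ∀ k, Dense (V k)) :
    ∃ τ : ℕ → ℕ, (∀ p : List Bool × ℕ, ∃ b, ty (τ b) = some p) ∧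
      ∀ᶠ y in residual (ℕ → Bool), ∀ k, Dense {z | (τ, (y, z)) ∈ V k} := by
  have h1 : ∀ᶠ τ in residual (ℕ → ℕ), ∀ k, Dense {r | (τ, r) ∈ V k} := by
    rw [eventually_countable_forall]
    exact fun k => kuratowski_ulam (ho k) (hd k)
  have h2 : ∀ᶠ τ in residual (ℕ → ℕ), ∀ p : List Bool × ℕ, ∃ b, ty (τ b) = some p := by
    rw [eventually_countable_forall]
    intro p
    exact residual_of_dense_open (dense_type p).1 (dense_type p).2
  obtain ⟨τ, h3, h4⟩ := (dense_of_mem_residual (h1.and h2)).nonempty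
  refine ⟨τ, h4, ?_⟩
  rw [eventually_countable_forall]
  intro k
  refine kuratowski_ulam (V := {r | (τ, r) ∈ V k}) ?_ (h3 k)
  exact (ho k).preimage (Continuous.prodMk_right τ)

end Ker66

open Ker66

/-- ME-KER1: first step. -/
theorem ker_step1 (a : Aut) (hpi : ∀ X, EE (a.pi X) X) (A : ℕ → Set ℕ) (V : ℕ → Set Gam)
    (ho : ∀ k, IsOpen (V k)) (hd : ∀ k, Dense (V k)) :
    ∃ g : Gam, (∀ k, g ∈ V k) ∧ ∃ Φ : Set (ℕ ⊕ (ℕ × ((ℕ × ℕ) ⊕ ℕ))) → Set ℕ, IsOp Φ ∧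
      ∀ Y ∈ a.symm.F (DP A), Φ (sj Y (facts A g)) ∈ DP A := by
  obtain ⟨τ, hτ, hres⟩ := ker_choice V ho hd
  -- the countable dense set of good base points
  set R₀ : Set (ℕ → Bool) := {y | ∀ k, Dense {z | (τ, (y, z)) ∈ V k}} with hR₀
  obtain ⟨C, hCR, hCc, _, hCd⟩ :=
    ((ENM_univ []).inter_residual (R := R₀) hres).exists_countable_dense
  have hCR' : ∀ y ∈ C, y ∈ R₀ := fun y hy => (hCR hy).2
  have hCc' : ENM Cᶜ [] := by
    have := (ENM_univ []).diff_countable hCc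
    rwa [← compl_eq_univ_sdiff] at this
  -- the problem K1
  set K1 : Set (Set ℕ) := range (fun y : {y : ℕ → Bool // y ∉ C} => k1 τ A y.1) with hK1
  obtain ⟨Λ, hΛ, hΛe⟩ := exists_enum_IsOp (α := ℕ) (β := ℕ)
  have hcover : Cᶜ ∩ cyl [] ⊆ ⋃ i, {y | Λ i (k1 τ A y) ∈ a.F K1} := by
    rintro y ⟨hy, _⟩
    have h1 : PR K1 {k1 τ A y} := PR_of_subset (by
      rintro _ rfl
      exact ⟨⟨y, hy⟩, rfl⟩)
    obtain ⟨Ψ, hΨ, hΨ'⟩ := F_le_single a hpi h1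
    obtain ⟨i, hi⟩ := hΛe Ψ hΨ
    refine mem_iUnion.2 ⟨i, ?_⟩
    change Λ i (k1 τ A y) ∈ a.F K1
    rw [hi]
    exact hΨ' _ rfl
  obtain ⟨i, σ, _, hE⟩ := baire_trick hCc' _ hcover
  set Y1 : Set (ℕ → Bool) := Cᶜ ∩ {y | Λ i (k1 τ A y) ∈ a.F K1} ∩ cyl σ with hY1
  obtain ⟨y₀, hy₀C, hy₀σ⟩ := hCd σ (List.nil_prefix)
  -- the satellites
  obtain ⟨z, hzB, hzV⟩ := product_lemma (ι := ℕ) (κ := ℕ) (fun k => {z | (τ, (y₀, z)) ∈ V k})
    (fun k => (ho k).preimage ((Continuous.prodMk_right τ).comp (Continuous.prodMk_right y₀)))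
    (fun k => hCR' y₀ hy₀C k)
    (fun m => if σ.length ≤ m then {z | sat y₀ m z ∈ Y1} else univ) (by
      intro m
      by_cases hm : σ.length ≤ m
      · simp only [hm, if_true]
        exact sat_ENM hE hy₀σ hm
      · simp only [hm, if_false]
        exact ENM_univ [])
  refine ⟨(τ, (y₀, z)), hzV, ?_⟩
  set G : Set (ℕ × ((ℕ × ℕ) ⊕ ℕ)) := facts A (τ, (y₀, z)) with hG
  -- K ≤ {k0 y₀} ∨ K1
  have hk : PR (DP A) (PJ {cd (k0 τ y₀)} K1) := by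
    obtain ⟨Θ, hΘ, hΘ'⟩ := joint_decode
    refine ⟨fun Z => Θ (dc Z), hΘ.comp IsOp.dc, ?_⟩
    rintro _ ⟨_, rfl, _, ⟨y, rfl⟩, rfl⟩
    change Θ (dc (cd (sj (cd (k0 τ y₀)) (k1 τ A y.1)))) ∈ DP A
    have hne : y₀ ≠ y.1 := by
      intro h
      exact y.2 (h ▸ hy₀C)
    rw [dc_cd, hΘ' τ hτ A y₀ y.1 hne]
    exact ⟨_, rfl⟩
  have hk2 : PR (a.F (DP A)) (PJ {cd (k0 τ y₀)} (a.F K1)) :=
    (a.F_mono _ _ hk).trans ((a.F_PJ _ _).1.trans
      (PJ_mono (F_le_single a hpi (PR.refl _)) (PR.refl _)))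
  obtain ⟨Ξ, hΞ, hΞ'⟩ := hk2
  -- small tags
  have hsm : ∀ n, ∃ Φ : Set ℕ → Set ℕ, IsOp Φ ∧ Φ (tg n (A n)) ∈ a.F (DP A) := by
    intro n
    have h1 : PR (DP A) {tg n (A n)} := PR_of_subset (by
      rintro _ rfl
      exact ⟨n, rfl⟩)
    obtain ⟨Φ, hΦ, hΦ'⟩ := F_le_single a hpi h1
    exact ⟨Φ, hΦ, hΦ' _ rfl⟩
  choose Φs hΦs hΦs' using hsm
  obtain ⟨Θf, hΘf, hΘf'⟩ := from_facts
  -- the main reduction
  have hmain : PR (a.F (DP A)) (PJ (DP A) {cd G}) := by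
    have hM : EP (fun (Z : Set (ℕ ⊕ (ℕ × ((ℕ × ℕ) ⊕ ℕ)))) (m : ℕ) =>
        Sum.inl (encode ((m, 0) : ℕ × ℕ)) ∈ Z) :=
      EP.mem (Primrec.sumInl.comp (Primrec.encode.comp (Primrec.id.pair (Primrec.const 0))))
    obtain ⟨Θ, hΘ, hΘ'⟩ := case_marker σ.length _ hM
      (fun i Z => Φs i {x | Sum.inl x ∈ Z}) (fun i => (hΦs i).comp IsOp.inl)
      (fun Z => Ξ (cd (sj {x | Sum.inl x ∈ Θf Z} (Λ i {x | Sum.inr x ∈ Θf Z})))) (by
        refine hΞ.comp (IsOp.cd (IsOp.sj ?_ ?_))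
        · exact IsOp.inl.comp hΘf
        · exact (hΛ i).comp (IsOp.inr.comp hΘf))
    refine ⟨fun Z => Θ (sj {x | Sum.inl x ∈ dc (α := ℕ ⊕ ℕ) Z}
      (dc {x | Sum.inr x ∈ dc (α := ℕ ⊕ ℕ) Z})), ?_, ?_⟩
    · refine hΘ.comp (IsOp.sj (IsOp.inl.comp IsOp.dc) (IsOp.dc.comp (IsOp.inr.comp IsOp.dc)))
    · rintro _ ⟨_, ⟨n, rfl⟩, _, rfl, rfl⟩
      have e1 : sj {x | Sum.inl x ∈ dc (α := ℕ ⊕ ℕ) (jn (tg n (A n)) (cd G))}
          (dc {x | Sum.inr x ∈ dc (α := ℕ ⊕ ℕ) (jn (tg n (A n)) (cd G))}) =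
          sj (tg n (A n)) G := by
        unfold jn
        rw [dc_cd]
        refine congrArg₂ sj rfl ?_
        exact dc_cd G
      change Θ (sj {x | Sum.inl x ∈ dc (α := ℕ ⊕ ℕ) (jn (tg n (A n)) (cd G))}
          (dc {x | Sum.inr x ∈ dc (α := ℕ ⊕ ℕ) (jn (tg n (A n)) (cd G))})) ∈ _
      rw [e1, hΘ' (sj (tg n (A n)) G) n (by
        intro m
        rw [inl_mem_sj]
        exact tg_marker)]
      by_cases hn : n < σ.length
      · simp only [hn, if_true]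
        exact hΦs' n
      · simp only [hn, if_false]
        have hz := hzB n
        simp only [not_lt.1 hn, if_true] at hz
        have hz' : sat y₀ n (z n) ∈ Y1 := hz
        have e2 := hΘf' A (τ, (y₀, z)) n
        rw [← hG] at e2
        have e3 : {x | Sum.inl x ∈ Θf (sj (tg n (A n)) G)} = cd (k0 τ y₀) := by
          rw [e2]
          rfl
        have e4 : {x | Sum.inr x ∈ Θf (sj (tg n (A n)) G)} = k1 τ A (sat y₀ n (z n)) := by
          rw [e2]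
          rfl
        rw [e3, e4]
        exact hΞ' _ ⟨_, rfl, _, hz'.1.2, rfl⟩
  -- apply the inverse
  have hfin : PR (DP A) (PJ (a.symm.F (DP A)) {cd G}) :=
    (a.GF (DP A)).2.trans ((a.symm.F_mono _ _ hmain).trans ((a.symm.F_PJ _ _).1.trans
      (PJ_mono (PR.refl _) (F_le_single a.symm (symm_pi_id a hpi) (PR.refl _)))))
  obtain ⟨Φ, hΦ, hΦ'⟩ := hfin
  refine ⟨fun Z => Φ (cd (sj {x | Sum.inl x ∈ Z} (cd {x | Sum.inr x ∈ Z}))),
    hΦ.comp (IsOp.cd (IsOp.sj IsOp.inl (IsOp.cd IsOp.inr))), ?_⟩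
  intro Y hY
  exact hΦ' _ ⟨Y, hY, cd G, rfl, rfl⟩

end ME
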