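import Pool.Agent.Helper66.ME.Ker1
import Pool.Agent.Helper95.ME.Ker2

/-!
# ME-KER3: an automorphism which fixes all sets fixes all problems
-/

set_option autoImplicit false

namespace ME

open Encodable Set

namespace Ker66

theorem DP_le (a : Aut) (hpi : ∀ X, EE (a.pi X) X) (A : ℕ → Set ℕ) : PR (a.F (DP A)) (DP A) := by
  have h1 : PR (DP A) (a.symm.F (DP A)) :=
    ker_step2 A _ (fun V ho hd => ker_step1 a hpi A V ho hd)
  exact (a.F_mono _ _ h1).trans (a.FG (DP A)).1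

theorem F_le (a : Aut) (hpi : ∀ X, EE (a.pi X) X) (P : Set (Set ℕ)) : PR (a.F P) P := by
  refine T3 fun s hs => ?_
  have h1 : PR P (DP s) := by
    obtain ⟨U, hU, hU'⟩ := exists_untag
    refine ⟨U, hU, ?_⟩
    rintro _ ⟨i, rfl⟩
    change U (tg i (s i)) ∈ P
    rw [hU']
    exact hs i
  exact (a.F_mono _ _ h1).trans (DP_le a hpi s)

end Ker66

open Ker66

/-- ME-KER3 -/
theorem rigid_of_pi (a : Aut) (hpi : ∀ X, EE (a.pi X) X) (P : Set (Set ℕ)) : PE (a.F P) P :=
  ⟨F_le a hpi P, (a.FG P).2.trans (a.F_mono _ _ (F_le a.symm (symm_pi_id a hpi) P))⟩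

end ME
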